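import Pool.Agent.H.MP_3bc7a7_gt.B

set_option autoImplicit false

namespace Pool.Agent.Results.MP_3bc7a7_gt.Counter

def WeaklyLindelof (X : Type) [TopologicalSpace X] : Prop :=
  ∀ 𝒰 : Set (Set X), (∀ U ∈ 𝒰, IsOpen U) → ⋃₀ 𝒰 = Set.univ →
    ∃ 𝒱 ⊆ 𝒰, 𝒱.Countable ∧ Dense (⋃₀ 𝒱)

def CellularLindelof (X : Type) [TopologicalSpace X] : Prop :=
  ∀ 𝒰 : Set (Set X), (∀ U ∈ 𝒰, IsOpen U ∧ U.Nonempty) → 𝒰.PairwiseDisjoint id →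
    ∃ L : Set X, IsLindelof L ∧ ∀ U ∈ 𝒰, (L ∩ U).Nonempty

theorem result (CH : Cardinal.continuum.{0} = Cardinal.aleph 1) :
    ∃ (X : Type) (_ : TopologicalSpace X), T4Space X ∧ FirstCountableTopology X ∧
      WeaklyLindelof X ∧ ¬ CellularLindelof X :=
  Pool.Agent.H.MP_3bc7a7_gt.B.main CH

end Pool.Agent.Results.MP_3bc7a7_gt.Counter
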